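import Pool.Agent.N906.SZ.Stm
import Pool.Agent.N163.RS_EUP
import Pool.Agent.Helper923.PNT

/-!
# Project SZ: Euler products over the prime numbers (EUPQ, GUPQ, GENU)
-/

set_option autoImplicit false

namespace Pool.Agent.N72.SZ

open Finset Filter Topology
open Pool.Agent.N906.SZ

theorem ncard_primes (n : ℕ) :
    Set.ncard {v : {p : ℕ // p.Prime} | ((v.1 : ℕ) : ℝ) ≤ n} = Nat.primeCounting n := by
  rw [← Set.ncard_image_of_injective _ Subtype.val_injective]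
  have h : (Subtype.val '' {v : {p : ℕ // p.Prime} | ((v.1 : ℕ) : ℝ) ≤ n}) =
      (((Finset.range (n + 1)).filter Nat.Prime : Finset ℕ) : Set ℕ) := by
    ext p
    simp only [Set.mem_image, Finset.coe_filter, Finset.mem_range]
    constructor
    · rintro ⟨v, hv, rfl⟩
      have hv' : ((v.1 : ℕ) : ℝ) ≤ n := hv
      exact ⟨by have : v.1 ≤ n := by exact_mod_cast hv'
                omega, v.2⟩
    · rintro ⟨h1, h2⟩
      refine ⟨⟨p, h2⟩, ?_, rfl⟩
      have : p ≤ n := by omega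
      show ((p : ℕ) : ℝ) ≤ n
      exact_mod_cast this
  rw [h, Set.ncard_coe_finset, Nat.primeCounting, Nat.primeCounting', Nat.count_eq_card_filter_range]

theorem eupq : S_EUPQ := by
  intro μ θ ε hμ hθ0 hθ hε
  have hpit : Tendsto (fun n : ℕ =>
      (Set.ncard {v : {p : ℕ // p.Prime} | ((v.1 : ℕ) : ℝ) ≤ n} : ℝ) * Real.log n / n)
      atTop (𝓝 1) := by
    have := Pool.Agent.Helper923.PNT.pi_tendsto.comp (tendsto_natCast_atTop_atTop (R := ℝ))
    refine this.congr fun N => ?_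
    simp only [Function.comp, Nat.floor_natCast, ncard_primes]
  have hcnt : ∀ (Y : ℝ) (s : Finset {p : ℕ // p.Prime}), 1 ≤ Y →
      (∀ v ∈ s, ((v.1 : ℕ) : ℝ) ≤ Y) → (s.card : ℝ) ≤ 1 * Y := by
    intro Y s hY hs
    rw [one_mul]
    have h1 : s.map (Function.Embedding.subtype _) ⊆ Finset.Icc 1 ⌊Y⌋₊ := by
      intro p hp
      rw [Finset.mem_map] at hp
      obtain ⟨v, hv, rfl⟩ := hp
      rw [Finset.mem_Icc]
      exact ⟨v.2.one_lt.le, Nat.le_floor (hs v hv)⟩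
    have h2 := Finset.card_le_card h1
    rw [Finset.card_map, Nat.card_Icc, Nat.add_sub_cancel] at h2
    calc (s.card : ℝ) ≤ (⌊Y⌋₊ : ℝ) := by exact_mod_cast h2
      _ ≤ Y := Nat.floor_le (by linarith)
  obtain ⟨u₀, h1, h2, h3⟩ := Pool.Agent.N163.RS.eup_core
    (fun v : {p : ℕ // p.Prime} => ((v.1 : ℕ) : ℝ))
    (fun v => by exact_mod_cast v.2.two_le) (fun v => ⟨v.1, rfl⟩) hpit 1 one_pos hcnt (μ / 3) θ ε
    (by positivity) hθ0 hθ hε
  refine ⟨u₀, h1, h2, fun u hu huu s hs => ?_⟩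
  have h4 := h3 u hu huu (s.subtype Nat.Prime)
  have e3 : 3 * (μ / 3) = μ := by ring
  simp only [e3] at h4
  rw [Finset.sum_subtype_of_mem (fun p : ℕ =>
    Real.log (1 + μ * (p : ℝ) ^ (θ * u - 1) / ((p : ℝ) ^ u - 1))) hs] at h4
  exact h4

/-! ### Euler products -/

/-- product over the primes -/
noncomputable def mf (g : ℕ → ℕ → ℝ) (n : ℕ) : ℝ :=
  ∏ p ∈ n.primeFactors, g p (n.factorization p)

theorem mf_one (g : ℕ → ℕ → ℝ) : mf g 1 = 1 := by simp [mf]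

theorem mf_mul (g : ℕ → ℕ → ℝ) {m n : ℕ} (h : m.Coprime n) :
    mf g (m * n) = mf g m * mf g n := by
  unfold mf
  rw [h.primeFactors_mul, Finset.prod_union h.disjoint_primeFactors]
  congr 1
  · refine Finset.prod_congr rfl fun p hp => ?_
    rw [Nat.factorization_eq_of_coprime_left h (Nat.mem_primeFactors_iff_mem_primeFactorsList.1 hp)]
  · refine Finset.prod_congr rfl fun p hp => ?_
    rw [Nat.factorization_eq_of_coprime_right h (Nat.mem_primeFactors_iff_mem_primeFactorsList.1 hp)]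

theorem mf_pow (g : ℕ → ℕ → ℝ) {p : ℕ} (hp : p.Prime) (e : ℕ) :
    mf g (p ^ (e + 1)) = g p (e + 1) := by
  unfold mf
  rw [Nat.primeFactors_prime_pow (Nat.succ_ne_zero e) hp, Finset.prod_singleton,
    hp.factorization_pow, Finsupp.single_eq_same]

theorem mf_nonneg (g : ℕ → ℕ → ℝ) (hg : ∀ p e, 0 ≤ g p e) (n : ℕ) : 0 ≤ mf g n :=
  Finset.prod_nonneg fun p _ => hg _ _

theorem sum_mf_le (g : ℕ → ℕ → ℝ) (hg : ∀ p e, 0 ≤ g p e)
    (hs : ∀ p : ℕ, p.Prime → Summable (fun e : ℕ => g p (e + 1)))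
    (F : Finset ℕ) (hF : ∀ n ∈ F, 1 ≤ n) :
    ∑ n ∈ F, mf g n ≤ ∏ p ∈ F.biUnion Nat.primeFactors, (1 + ∑' e : ℕ, g p (e + 1)) := by
  classical
  set s := F.biUnion Nat.primeFactors with hsdef
  have hsp : ∀ p ∈ s, p.Prime := by
    intro p hp
    obtain ⟨n, _, h⟩ := Finset.mem_biUnion.1 hp
    exact Nat.prime_of_mem_primeFactors h
  have hsum : ∀ p : ℕ, p.Prime → Summable (fun e : ℕ => mf g (p ^ e)) := by
    intro p hp
    rw [← summable_nat_add_iff 1]
    exact (hs p hp).congr fun e => (mf_pow g hp e).symm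
  have hval : ∀ p : ℕ, p.Prime → ∑' e : ℕ, mf g (p ^ e) = 1 + ∑' e : ℕ, g p (e + 1) := by
    intro p hp
    rw [(hsum p hp).tsum_eq_zero_add, pow_zero, mf_one]
    congr 1
    exact tsum_congr fun e => mf_pow g hp e
  have h1 := (EulerProduct.summable_and_hasSum_factoredNumbers_prod_filter_prime_tsum
    (f := mf g) (mf_one g) (fun h => mf_mul g h) (fun {p} hp => by
      simpa only [Real.norm_of_nonneg (mf_nonneg g hg _)] using hsum p hp) s).2
  have h2 : ∏ p ∈ s with p.Prime, ∑' n : ℕ, mf g (p ^ n) =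
      ∏ p ∈ s, (1 + ∑' e : ℕ, g p (e + 1)) := by
    rw [Finset.filter_true_of_mem hsp]
    exact Finset.prod_congr rfl fun p hp => hval p (hsp p hp)
  rw [h2] at h1
  have hmem : ∀ n ∈ F, n ∈ Nat.factoredNumbers s := by
    intro n hn
    rw [Nat.mem_factoredNumbers_iff_primeFactors_subset]
    exact ⟨by have := hF n hn; omega, Finset.subset_biUnion_of_mem _ hn⟩
  have h3 := sum_le_hasSum (F.subtype (· ∈ Nat.factoredNumbers s))
    (fun i _ => mf_nonneg g hg i.1) h1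
  rwa [Finset.sum_subtype_of_mem (mf g) hmem] at h3

theorem rpow_eq {n : ℕ} (hn : 1 ≤ n) (u : ℝ) :
    (n : ℝ) ^ (-u) = ∏ p ∈ n.primeFactors, ((p : ℝ) ^ (-u)) ^ (n.factorization p) := by
  have h0 : n ≠ 0 := by omega
  have h1 : ((n : ℕ) : ℝ) = ∏ p ∈ n.primeFactors, (p : ℝ) ^ (n.factorization p) := by
    have h2 := Nat.prod_factorization_pow_eq_self h0
    have h3 : n.factorization.prod (fun x1 x2 => x1 ^ x2) =
      ∏ p ∈ n.primeFactors, p ^ (n.factorization p) := rfl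
    rw [h3] at h2
    conv_lhs => rw [← h2]
    push_cast
    rfl
  rw [h1, ← Real.finsetProd_rpow _ _ (fun p _ => by positivity)]
  refine Finset.prod_congr rfl fun p _ => ?_
  rw [← Real.rpow_natCast, ← Real.rpow_mul (by positivity), ← Real.rpow_natCast,
    ← Real.rpow_mul (by positivity)]
  congr 1
  ring

theorem q_lt {p : ℕ} (hp : p.Prime) {u : ℝ} (hu : 0 < u) : (p : ℝ) ^ (-u) < 1 :=
  Real.rpow_lt_one_of_one_lt_of_neg (by exact_mod_cast hp.one_lt) (by linarith)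

theorem geo {p : ℕ} (hp : p.Prime) {u : ℝ} (hu : 0 < u) (c : ℝ) :
    HasSum (fun e : ℕ => c * ((p : ℝ) ^ (-u)) ^ (e + 1)) (c / ((p : ℝ) ^ u - 1)) := by
  have hp0 : (0 : ℝ) < p := by exact_mod_cast hp.pos
  have h0 : 0 ≤ (p : ℝ) ^ (-u) := by positivity
  have h1 := q_lt hp hu
  have h2 := (hasSum_geometric_of_lt_one h0 h1).mul_left (c * (p : ℝ) ^ (-u))
  have hu1 : 1 < (p : ℝ) ^ u := Real.one_lt_rpow (by exact_mod_cast hp.one_lt) hu
  have e1 : c * (p : ℝ) ^ (-u) * (1 - (p : ℝ) ^ (-u))⁻¹ = c / ((p : ℝ) ^ u - 1) := by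
    rw [Real.rpow_neg hp0.le]
    have : (p : ℝ) ^ u - 1 ≠ 0 := by
      have : 0 < (p : ℝ) ^ u - 1 := by linarith
      exact this.ne'
    have h3 : (p : ℝ) ^ u ≠ 0 := by positivity
    have h4 : 1 - ((p : ℝ) ^ u)⁻¹ = ((p : ℝ) ^ u - 1) / (p : ℝ) ^ u := by field_simp
    rw [h4]
    field_simp
  rw [e1] at h2
  refine h2.congr_fun fun e => ?_
  rw [pow_succ]
  ring

theorem gupq : S_GUPQ := by
  intro μ θ ε hμ hθ0 hθ hε
  obtain ⟨u₀, h1, h2, h3⟩ := eupq μ θ ε hμ hθ0 hθ hε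
  refine ⟨u₀, h1, h2, fun u hu huu F hF => ?_⟩
  set g : ℕ → ℕ → ℝ := fun p e => μ * (p : ℝ) ^ (-(1 - θ * u)) * ((p : ℝ) ^ (-u)) ^ e with hgdef
  have hg : ∀ p e, 0 ≤ g p e := fun p e => by
    simp only [hgdef]
    positivity
  have hgeo : ∀ p : ℕ, p.Prime → HasSum (fun e : ℕ => g p (e + 1))
      (μ * (p : ℝ) ^ (θ * u - 1) / ((p : ℝ) ^ u - 1)) := by
    intro p hp
    have h := geo hp hu (μ * (p : ℝ) ^ (-(1 - θ * u)))
    have e : -(1 - θ * u) = θ * u - 1 := by ring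
    simp only [hgdef, e]
    rw [e] at h
    exact h
  have hmf : ∀ n ∈ F, μ ^ n.primeFactors.card * (n : ℝ) ^ (-u) *
      ((∏ p ∈ n.primeFactors, p : ℕ) : ℝ) ^ (-(1 - θ * u)) = mf g n := by
    intro n hn
    rw [rpow_eq (hF n hn)]
    unfold mf
    simp only [hgdef]
    rw [Finset.prod_mul_distrib, Finset.prod_mul_distrib, Finset.prod_const]
    push_cast
    rw [← Real.finsetProd_rpow _ _ (fun p _ => by positivity)]
    ring
  rw [Finset.sum_congr rfl hmf]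
  have hsp : ∀ p ∈ F.biUnion Nat.primeFactors, p.Prime := by
    intro p hp
    obtain ⟨n, _, h⟩ := Finset.mem_biUnion.1 hp
    exact Nat.prime_of_mem_primeFactors h
  refine (sum_mf_le g hg (fun p hp => (hgeo p hp).summable) F hF).trans ?_
  have hpos : ∀ p ∈ F.biUnion Nat.primeFactors,
      0 < 1 + μ * (p : ℝ) ^ (θ * u - 1) / ((p : ℝ) ^ u - 1) := by
    intro p hp
    have hu1 : 1 < (p : ℝ) ^ u :=
      Real.one_lt_rpow (by exact_mod_cast (hsp p hp).one_lt) hu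
    have : 0 < (p : ℝ) ^ u - 1 := by linarith
    positivity
  calc ∏ p ∈ F.biUnion Nat.primeFactors, (1 + ∑' e : ℕ, g p (e + 1))
      = ∏ p ∈ F.biUnion Nat.primeFactors,
        (1 + μ * (p : ℝ) ^ (θ * u - 1) / ((p : ℝ) ^ u - 1)) :=
        Finset.prod_congr rfl fun p hp => by rw [(hgeo p (hsp p hp)).tsum_eq]
    _ = Real.exp (∑ p ∈ F.biUnion Nat.primeFactors,
        Real.log (1 + μ * (p : ℝ) ^ (θ * u - 1) / ((p : ℝ) ^ u - 1))) := by
        rw [Real.exp_sum]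
        exact Finset.prod_congr rfl fun p hp => (Real.exp_log (hpos p hp)).symm
    _ ≤ _ := Real.exp_le_exp.2 (h3 u hu huu _ hsp)

/-! ### GENU -/

theorem zeta_Icc {σ : ℝ} (hσ : 0 < σ) (N : ℕ) :
    ∑ n ∈ Icc 1 (N + 1), (n : ℝ) ^ (-(1 + σ)) ≤ 1 + 1 / σ * (1 - ((N : ℝ) + 1) ^ (-σ)) := by
  induction N with
  | zero => simp
  | succ N ih =>
    rw [Finset.sum_Icc_succ_top (by omega)]
    have hN : (0 : ℝ) < (N : ℝ) + 1 := by positivity
    have hN2 : (0 : ℝ) < (N : ℝ) + 1 + 1 := by positivity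
    have e1 : (((N + 1 + 1 : ℕ) : ℝ)) = (N : ℝ) + 1 + 1 := by push_cast; ring
    rw [e1]
    push_cast
    have key : ((N : ℝ) + 1 + 1) ^ (-(1 + σ)) ≤
        1 / σ * (((N : ℝ) + 1) ^ (-σ) - ((N : ℝ) + 1 + 1) ^ (-σ)) := by
      set a := (N : ℝ) + 1 with ha
      have h1 : a ^ (-σ) = (a + 1) ^ (-σ) * Real.exp (σ * Real.log ((a + 1) / a)) := by
        rw [Real.log_div hN2.ne' hN.ne', Real.rpow_def_of_pos hN, Real.rpow_def_of_pos hN2,
          ← Real.exp_add]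
        congr 1
        ring
      have h2 : 1 / (a + 1) ≤ Real.log ((a + 1) / a) := by
        have := Real.one_sub_inv_le_log_of_pos (show 0 < (a + 1) / a by positivity)
        refine le_trans (le_of_eq ?_) this
        field_simp
        ring
      have h3 : 1 + σ * (1 / (a + 1)) ≤ Real.exp (σ * Real.log ((a + 1) / a)) := by
        have h4 := Real.add_one_le_exp (σ * Real.log ((a + 1) / a))
        have h5 := mul_le_mul_of_nonneg_left h2 hσ.le
        linarith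
      have h6 : (a + 1) ^ (-(1 + σ)) = (a + 1) ^ (-σ) * (1 / (a + 1)) := by
        rw [show -(1 + σ) = -σ + (-1) by ring, Real.rpow_add hN2, Real.rpow_neg_one, one_div]
      have h7 : 0 ≤ (a + 1) ^ (-σ) := by positivity
      rw [h1, h6]
      have h8 := mul_le_mul_of_nonneg_left h3 h7
      rw [one_div σ, inv_mul_eq_div, le_div_iff₀ hσ]
      nlinarith
    have e2 : 1 + 1 / σ * (1 - ((N : ℝ) + 1 + 1) ^ (-σ)) =
        1 + 1 / σ * (1 - ((N : ℝ) + 1) ^ (-σ)) +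
        1 / σ * (((N : ℝ) + 1) ^ (-σ) - ((N : ℝ) + 1 + 1) ^ (-σ)) := by ring
    rw [e2]
    exact add_le_add ih key

theorem zeta_fin {σ : ℝ} (hσ : 0 < σ) (T : Finset ℕ) (hT : ∀ n ∈ T, 1 ≤ n) :
    ∑ n ∈ T, (n : ℝ) ^ (-(1 + σ)) ≤ 1 + 1 / σ := by
  have hsub : T ⊆ Icc 1 (T.sup id + 1) := by
    intro n hn
    rw [Finset.mem_Icc]
    exact ⟨hT n hn, (Finset.le_sup (f := id) hn).trans (Nat.le_succ _)⟩
  refine (Finset.sum_le_sum_of_subset_of_nonneg hsub fun n _ _ => by positivity).trans ?_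
  refine (zeta_Icc hσ _).trans ?_
  have : 0 ≤ (((T.sup id : ℕ) : ℝ) + 1) ^ (-σ) := by positivity
  have h2 : 0 < 1 / σ := by positivity
  nlinarith

theorem prod_one_add_le {σ : ℝ} (hσ : 0 < σ) (s : Finset ℕ) (hs : ∀ p ∈ s, p.Prime) :
    ∏ p ∈ s, (1 + (p : ℝ) ^ (-(1 + σ))) ≤ 1 + 1 / σ := by
  classical
  rw [Finset.prod_one_add]
  have hinj : Set.InjOn (fun t : Finset ℕ => ∏ p ∈ t, p) (s.powerset : Set (Finset ℕ)) := by
    intro t ht t' ht' h
    rw [Finset.mem_coe, Finset.mem_powerset] at ht ht'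
    have h1 := Nat.primeFactors_prod (s := t) (fun p hp => hs p (ht hp))
    have h2 := Nat.primeFactors_prod (s := t') (fun p hp => hs p (ht' hp))
    rw [← h1, ← h2]
    exact congrArg Nat.primeFactors h
  have e : ∑ t ∈ s.powerset, ∏ p ∈ t, (p : ℝ) ^ (-(1 + σ)) =
      ∑ n ∈ s.powerset.image (fun t : Finset ℕ => ∏ p ∈ t, p), (n : ℝ) ^ (-(1 + σ)) := by
    rw [Finset.sum_image hinj]
    refine Finset.sum_congr rfl fun t _ => ?_
    push_cast
    rw [Real.finsetProd_rpow _ _ (fun p _ => by positivity)]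
  rw [e]
  apply zeta_fin hσ
  intro n hn
  obtain ⟨t, ht, rfl⟩ := Finset.mem_image.1 hn
  rw [Finset.mem_powerset] at ht
  exact Nat.one_le_iff_ne_zero.2 (Finset.prod_ne_zero_iff.2 fun p hp => (hs p (ht hp)).ne_zero)

theorem small (ε : ℝ) (hε : 0 < ε) : ∀ᶠ u : ℝ in 𝓝[>] 0,
    (1 + 2 / u) ^ 8 ≤ Real.exp (ε / (u * Real.log (1 / u))) := by
  -- `8 log (1 + 2/u) u log (1/u) → 0`
  have h1 : Tendsto (fun u : ℝ => u * (Real.log u) ^ 2) (𝓝[>] 0) (𝓝 0) := by
    have h := tendsto_log_mul_rpow_nhdsGT_zero (show (0 : ℝ) < 1 / 2 by norm_num)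
    have h2 := h.mul h
    rw [mul_zero] at h2
    refine h2.congr' ?_
    filter_upwards [self_mem_nhdsWithin] with u hu
    have hu' : (0 : ℝ) < u := hu
    have e : u ^ (1 / 2 : ℝ) * u ^ (1 / 2 : ℝ) = u := by
      rw [← Real.rpow_add hu']
      norm_num
    calc Real.log u * u ^ (1 / 2 : ℝ) * (Real.log u * u ^ (1 / 2 : ℝ)) =
        (u ^ (1 / 2 : ℝ) * u ^ (1 / 2 : ℝ)) * Real.log u ^ 2 := by ring
      _ = _ := by rw [e]
  have h3 : ∀ᶠ u : ℝ in 𝓝[>] 0, u * (Real.log u) ^ 2 < ε / 24 :=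
    h1.eventually (gt_mem_nhds (by positivity))
  filter_upwards [h3, Ioo_mem_nhdsGT (show (0 : ℝ) < 1 / 3 by norm_num)] with u hu1 hu2
  have hu : 0 < u := hu2.1
  have hu3 : u < 1 / 3 := hu2.2
  have hL : 0 < Real.log (1 / u) := Real.log_pos (by rw [lt_div_iff₀ hu]; linarith)
  have hL' : Real.log (1 / u) = - Real.log u := by rw [one_div, Real.log_inv]
  -- `1 + 2/u ≤ (1/u)^3`
  have h4 : 1 + 2 / u ≤ (1 / u) ^ 3 := by
    have h5 : 3 ≤ 1 / u := by rw [le_div_iff₀ hu]; linarith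
    set y := 1 / u with hy
    have : 2 / u = 2 * y := by rw [hy]; ring
    rw [this]
    nlinarith [mul_nonneg (show 0 ≤ y - 3 by linarith) (show 0 ≤ y by linarith),
      mul_nonneg (mul_nonneg (show 0 ≤ y - 3 by linarith) (show 0 ≤ y by linarith))
        (show 0 ≤ y by linarith)]
  have h6 : (1 + 2 / u) ^ 8 ≤ ((1 / u) ^ 3) ^ 8 := pow_le_pow_left₀ (by positivity) h4 8
  refine h6.trans ?_
  have h7 : ((1 / u) ^ 3) ^ 8 = Real.exp (24 * Real.log (1 / u)) := by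
    rw [← pow_mul, show (3 * 8 : ℕ) = 24 from rfl]
    have := Real.exp_log (show 0 < 1 / u by positivity)
    calc (1 / u) ^ 24 = (Real.exp (Real.log (1 / u))) ^ 24 := by rw [this]
      _ = Real.exp (24 * Real.log (1 / u)) := by
        rw [← Real.exp_nat_mul]; norm_num
  rw [h7, Real.exp_le_exp, le_div_iff₀ (by positivity)]
  have h8 : 24 * Real.log (1 / u) * (u * Real.log (1 / u)) = 24 * (u * Real.log u ^ 2) := by
    rw [hL']; ring
  rw [h8]
  linarith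

/-- the local weights for GENU -/
noncomputable def gw (u : ℝ) (p e : ℕ) : ℝ :=
  (if 5 ≤ p then (if 6 ≤ e ∧ e ≤ 8 then 3 else 2) / (p : ℝ) else 1) * ((p : ℝ) ^ (-u)) ^ e

theorem gw_nonneg (u : ℝ) (p e : ℕ) : 0 ≤ gw u p e := by
  unfold gw
  split_ifs <;> positivity

theorem gw_sum {u : ℝ} (hu : 0 < u) {p : ℕ} (hp : p.Prime) :
    Summable (fun e : ℕ => gw u p (e + 1)) ∧
    1 + ∑' e : ℕ, gw u p (e + 1) ≤
      (1 + 2 * (p : ℝ) ^ ((0 : ℝ) * u - 1) / ((p : ℝ) ^ u - 1)) *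
        ((1 + (p : ℝ) ^ (-(1 + 6 * u))) ^ 3 * (if p < 5 then 1 + 2 / u else 1)) := by
  have hp0 : (0 : ℝ) < p := by exact_mod_cast hp.pos
  have hu1 : 1 < (p : ℝ) ^ u := Real.one_lt_rpow (by exact_mod_cast hp.one_lt) hu
  have hu2 : 0 < (p : ℝ) ^ u - 1 := by linarith
  have hA : 1 ≤ 1 + 2 * (p : ℝ) ^ ((0 : ℝ) * u - 1) / ((p : ℝ) ^ u - 1) := by
    have : 0 ≤ 2 * (p : ℝ) ^ ((0 : ℝ) * u - 1) / ((p : ℝ) ^ u - 1) := by positivity
    linarith
  set c := (p : ℝ) ^ (-(1 + 6 * u)) with hc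
  have hc0 : 0 ≤ c := by positivity
  by_cases h5 : p < 5
  · have hn5 : ¬ 5 ≤ p := by omega
    have e1 : (fun e : ℕ => gw u p (e + 1)) = fun e : ℕ => 1 * ((p : ℝ) ^ (-u)) ^ (e + 1) := by
      funext e
      unfold gw
      rw [if_neg hn5]
    have h1 := geo hp hu 1
    rw [← e1] at h1
    refine ⟨h1.summable, ?_⟩
    rw [h1.tsum_eq, if_pos h5]
    have h2 : 1 + 1 / ((p : ℝ) ^ u - 1) ≤ 1 + 2 / u := by
      have h3 : u * Real.log 2 ≤ (p : ℝ) ^ u - 1 := by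
        rw [Real.rpow_def_of_pos hp0]
        have h4 := Real.add_one_le_exp (Real.log p * u)
        have h6 : Real.log 2 ≤ Real.log p :=
          Real.log_le_log two_pos (by exact_mod_cast hp.two_le)
        nlinarith
      have h7 : (1 : ℝ) / 2 ≤ Real.log 2 := by
        have := Real.log_two_gt_d9
        linarith
      have h8 : u / 2 ≤ (p : ℝ) ^ u - 1 := by nlinarith
      have h9 : 1 / ((p : ℝ) ^ u - 1) ≤ 2 / u := by
        rw [div_le_div_iff₀ hu2 hu]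
        linarith
      linarith
    have h10 : 1 ≤ (1 + c) ^ 3 := one_le_pow₀ (by linarith)
    have h11 : (0 : ℝ) ≤ 1 + 2 / u := by positivity
    calc 1 + 1 / ((p : ℝ) ^ u - 1) ≤ 1 + 2 / u := h2
      _ = 1 * (1 * (1 + 2 / u)) := by ring
      _ ≤ _ := mul_le_mul hA (mul_le_mul_of_nonneg_right h10 h11) (by positivity) (by linarith)
  · have hn5 : 5 ≤ p := by omega
    set q := (p : ℝ) ^ (-u) with hq
    have hq0 : 0 ≤ q := by positivity
    have hq1 : q < 1 := q_lt hp hu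
    -- split off the extra terms
    have hdec : ∀ e : ℕ, gw u p (e + 1) = 2 / (p : ℝ) * q ^ (e + 1) +
        (if e ∈ Finset.Icc 5 7 then q ^ (e + 1) / (p : ℝ) else 0) := by
      intro e
      unfold gw
      rw [if_pos hn5]
      by_cases he : e ∈ Finset.Icc 5 7
      · rw [if_pos he]
        rw [Finset.mem_Icc] at he
        rw [if_pos (by omega)]
        ring
      · rw [if_neg he]
        rw [Finset.mem_Icc] at he
        rw [if_neg (by omega)]
        ring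
    have h1 := geo hp hu (2 / (p : ℝ))
    have h2 : HasSum (fun e : ℕ => if e ∈ Finset.Icc 5 7 then q ^ (e + 1) / (p : ℝ) else 0)
        (∑ e ∈ Finset.Icc 5 7, q ^ (e + 1) / (p : ℝ)) := by
      have h : HasSum (fun e : ℕ => if e ∈ Finset.Icc 5 7 then q ^ (e + 1) / (p : ℝ) else 0)
          (∑ e ∈ Finset.Icc 5 7, if e ∈ Finset.Icc 5 7 then q ^ (e + 1) / (p : ℝ) else 0) :=
        hasSum_sum_of_ne_finset_zero (fun e he => if_neg he)
      have e1 : ∑ e ∈ Finset.Icc 5 7, q ^ (e + 1) / (p : ℝ) =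
          ∑ e ∈ Finset.Icc 5 7, if e ∈ Finset.Icc 5 7 then q ^ (e + 1) / (p : ℝ) else 0 :=
        Finset.sum_congr rfl fun e he => (if_pos he).symm
      rw [e1]
      exact h
    have h3 : HasSum (fun e : ℕ => gw u p (e + 1))
        (2 / (p : ℝ) / ((p : ℝ) ^ u - 1) + ∑ e ∈ Finset.Icc 5 7, q ^ (e + 1) / (p : ℝ)) :=
      (h1.add h2).congr_fun hdec
    refine ⟨h3.summable, ?_⟩
    rw [h3.tsum_eq, if_neg h5]
    have h4 : ∑ e ∈ Finset.Icc 5 7, q ^ (e + 1) / (p : ℝ) ≤ 3 * c := by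
      have h6 : ∀ e ∈ Finset.Icc 5 7, q ^ (e + 1) / (p : ℝ) ≤ c := by
        intro e he
        rw [Finset.mem_Icc] at he
        have h7 : q ^ (e + 1) ≤ q ^ 6 := pow_le_pow_of_le_one hq0 hq1.le (by omega)
        have h8 : q ^ 6 / (p : ℝ) = c := by
          rw [hc, hq, ← Real.rpow_natCast, ← Real.rpow_mul hp0.le,
            show -(1 + 6 * u) = -u * ((6 : ℕ) : ℝ) + (-1) by push_cast; ring,
            Real.rpow_add hp0, Real.rpow_neg_one]
          rfl
        rw [← h8]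
        exact div_le_div_of_nonneg_right h7 hp0.le
      have := Finset.sum_le_card_nsmul _ _ _ h6
      rw [Nat.card_Icc, nsmul_eq_mul] at this
      norm_num at this
      exact this
    have e0 : (p : ℝ) ^ ((0 : ℝ) * u - 1) = (p : ℝ)⁻¹ := by
      rw [zero_mul, zero_sub, Real.rpow_neg_one]
    rw [e0]
    have e1 : 2 / (p : ℝ) / ((p : ℝ) ^ u - 1) = 2 * (p : ℝ)⁻¹ / ((p : ℝ) ^ u - 1) := by
      rw [div_eq_mul_inv 2 (p : ℝ)]
    rw [e1]
    rw [e0] at hA
    set B := 2 * (p : ℝ)⁻¹ / ((p : ℝ) ^ u - 1) with hB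
    have hB0 : 0 ≤ B := by linarith
    have h9 : 1 + 3 * c ≤ (1 + c) ^ 3 := by
      nlinarith [mul_nonneg hc0 hc0, mul_nonneg (mul_nonneg hc0 hc0) hc0]
    have h10 : 0 ≤ B * ((1 + c) ^ 3 - 1) := mul_nonneg hB0 (by nlinarith)
    nlinarith

theorem genu : S_GENU := by
  intro ε hε
  obtain ⟨u₀, h1, h2, h3⟩ := eupq 2 0 (ε / 2) two_pos le_rfl (by norm_num) (by positivity)
  have hsm := small ε hε
  obtain ⟨u₁, hu₁, hu₁'⟩ := mem_nhdsGT_iff_exists_Ioo_subset.1 hsm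
  have hu₁0 : (0 : ℝ) < u₁ := hu₁
  refine ⟨min u₀ u₁, lt_min h1 hu₁0, (min_le_left _ _).trans_lt h2, fun u hu huu F hF => ?_⟩
  have huu0 : u < u₀ := huu.trans_le (min_le_left _ _)
  have huu1 : u < u₁ := huu.trans_le (min_le_right _ _)
  have hsm' : (1 + 2 / u) ^ 8 ≤ Real.exp (ε / (u * Real.log (1 / u))) := hu₁' ⟨hu, huu1⟩
  have hmf : ∀ n ∈ F, (cc n : ℝ) * (n : ℝ) ^ (-u) / rd n = mf (gw u) n := by
    intro n hn
    rw [rpow_eq (hF n hn)]
    unfold mf cc rd gw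
    rw [Finset.prod_mul_distrib]
    push_cast
    rw [Finset.prod_filter, Finset.prod_filter, mul_div_right_comm]
    congr 1
    rw [← Finset.prod_div_distrib]
    refine Finset.prod_congr rfl fun p _ => ?_
    split_ifs <;> simp
  rw [Finset.sum_congr rfl hmf]
  set s := F.biUnion Nat.primeFactors with hs
  have hsp : ∀ p ∈ s, p.Prime := by
    intro p hp
    obtain ⟨n, _, h⟩ := Finset.mem_biUnion.1 hp
    exact Nat.prime_of_mem_primeFactors h
  refine (sum_mf_le (gw u) (gw_nonneg u) (fun p hp => (gw_sum hu hp).1) F hF).trans ?_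
  have hpos : ∀ p ∈ s, 0 < 1 + 2 * (p : ℝ) ^ ((0 : ℝ) * u - 1) / ((p : ℝ) ^ u - 1) := by
    intro p hp
    have hu1 : 1 < (p : ℝ) ^ u :=
      Real.one_lt_rpow (by exact_mod_cast (hsp p hp).one_lt) hu
    have : 0 < (p : ℝ) ^ u - 1 := by linarith
    positivity
  have hstep : ∏ p ∈ s, (1 + ∑' e : ℕ, gw u p (e + 1)) ≤
      ∏ p ∈ s, ((1 + 2 * (p : ℝ) ^ ((0 : ℝ) * u - 1) / ((p : ℝ) ^ u - 1)) *
        ((1 + (p : ℝ) ^ (-(1 + 6 * u))) ^ 3 * (if p < 5 then 1 + 2 / u else 1))) := by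
    refine Finset.prod_le_prod (fun p _ => ?_) (fun p hp => (gw_sum hu (hsp p hp)).2)
    have : 0 ≤ ∑' e : ℕ, gw u p (e + 1) := tsum_nonneg fun e => gw_nonneg u p _
    linarith
  refine hstep.trans ?_
  rw [Finset.prod_mul_distrib, Finset.prod_mul_distrib, Finset.prod_pow]
  have k1 : ∏ p ∈ s, (1 + 2 * (p : ℝ) ^ ((0 : ℝ) * u - 1) / ((p : ℝ) ^ u - 1)) ≤
      Real.exp ((1 + ε / 2) * 2 / (u * Real.log (1 / u))) := by
    calc _ = Real.exp (∑ p ∈ s,
        Real.log (1 + 2 * (p : ℝ) ^ ((0 : ℝ) * u - 1) / ((p : ℝ) ^ u - 1))) := by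
          rw [Real.exp_sum]
          exact Finset.prod_congr rfl fun p hp => (Real.exp_log (hpos p hp)).symm
      _ ≤ _ := Real.exp_le_exp.2 (h3 u hu huu0 _ hsp)
  have hd1 : (1 : ℝ) ≤ 1 + 2 / u := by
    have : 0 < 2 / u := by positivity
    linarith
  have k2 : (∏ p ∈ s, (1 + (p : ℝ) ^ (-(1 + 6 * u)))) ^ 3 ≤ (1 + 2 / u) ^ 3 := by
    apply pow_le_pow_left₀ (Finset.prod_nonneg fun p _ => by positivity)
    refine (prod_one_add_le (show 0 < 6 * u by positivity) s hsp).trans ?_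
    have : 1 / (6 * u) ≤ 2 / u := by
      rw [div_le_div_iff₀ (by positivity) hu]
      linarith
    linarith
  have k3 : ∏ p ∈ s, (if p < 5 then 1 + 2 / u else (1 : ℝ)) ≤ (1 + 2 / u) ^ 5 := by
    rw [Finset.prod_ite, Finset.prod_const, Finset.prod_const_one, mul_one]
    apply pow_le_pow_right₀ hd1
    have : s.filter (fun p => p < 5) ⊆ Finset.range 5 := by
      intro p hp
      rw [Finset.mem_filter] at hp
      exact Finset.mem_range.2 hp.2
    have := Finset.card_le_card this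
    rwa [Finset.card_range] at this
  have k4 : (∏ p ∈ s, (1 + (p : ℝ) ^ (-(1 + 6 * u)))) ^ 3 *
      ∏ p ∈ s, (if p < 5 then 1 + 2 / u else (1 : ℝ)) ≤ (1 + 2 / u) ^ 8 := by
    calc _ ≤ (1 + 2 / u) ^ 3 * (1 + 2 / u) ^ 5 := by
          refine mul_le_mul k2 k3 (Finset.prod_nonneg fun p _ => ?_) (by positivity)
          split_ifs <;> positivity
      _ = (1 + 2 / u) ^ 8 := by rw [← pow_add]
  calc _ ≤ Real.exp ((1 + ε / 2) * 2 / (u * Real.log (1 / u))) *
        Real.exp (ε / (u * Real.log (1 / u))) := by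
        refine mul_le_mul k1 (k4.trans hsm') ?_ (Real.exp_pos _).le
        refine mul_nonneg (by positivity) (Finset.prod_nonneg fun p _ => ?_)
        split_ifs <;> positivity
    _ = Real.exp ((1 + ε) * 2 / (u * Real.log (1 / u))) := by
        rw [← Real.exp_add]
        congr 1
        ring

end Pool.Agent.N72.SZ
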