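import Pool.Agent.N906.KG.Def
import Pool.Agent.N906.EQ.Hgt

/-!
# Project KG (helper906): rational points on a curve of `P¹ × P¹`
-/

set_option autoImplicit false

namespace Pool.Agent.N72.KG

open NumberField Finset Pool.Agent.N906.KG

section

variable {K : Type} [Field K]

/-- the form in affine coordinates -/
noncomputable def dg (G : MvPolynomial (Fin 4) K) : Polynomial (Polynomial K) :=
  ∑ m ∈ G.support, Polynomial.monomial (m 2) (Polynomial.monomial (m 0) (G.coeff m))

theorem dg_coeff (G : MvPolynomial (Fin 4) K) (i j : ℕ) : ((dg G).coeff j).coeff i =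
    ∑ m ∈ G.support, if m 2 = j ∧ m 0 = i then G.coeff m else 0 := by
  unfold dg
  rw [Polynomial.finsetSum_coeff, Polynomial.finsetSum_coeff]
  refine sum_congr rfl fun m _ => ?_
  rw [Polynomial.coeff_monomial]
  by_cases h : m 2 = j
  · rw [if_pos h, Polynomial.coeff_monomial]
    by_cases h' : m 0 = i
    · rw [if_pos h', if_pos ⟨h, h'⟩]
    · rw [if_neg h', if_neg (fun e => h' e.2)]
  · rw [if_neg h, if_neg (fun e => h e.1), Polynomial.coeff_zero]

theorem dg_ne {G : MvPolynomial (Fin 4) K} (hG : G ≠ 0) {a b : ℕ}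
    (hab : ∀ m ∈ G.support, m 0 + m 1 = a ∧ m 2 + m 3 = b) : ∃ j, (dg G).coeff j ≠ 0 := by
  obtain ⟨m, hm⟩ := MvPolynomial.support_nonempty.2 hG
  refine ⟨m 2, fun h => ?_⟩
  have h1 := dg_coeff G (m 0) (m 2)
  rw [h, Polynomial.coeff_zero, sum_eq_single m] at h1
  · rw [if_pos ⟨rfl, rfl⟩] at h1
    exact MvPolynomial.mem_support_iff.1 hm h1.symm
  · intro m' hm' hne
    rw [if_neg]
    rintro ⟨e1, e2⟩
    apply hne
    have h2 := hab m hm
    have h3 := hab m' hm'
    ext i
    fin_cases i
    · exact e2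
    · show m' 1 = m 1
      omega
    · exact e1
    · show m' 3 = m 3
      omega
  · intro h2
    exact absurd hm h2

theorem ev_dg {G : MvPolynomial (Fin 4) K} {a b : ℕ}
    (hab : ∀ m ∈ G.support, m 0 + m 1 = a ∧ m 2 + m 3 = b) (x0 x1 y0 y1 : K) (hx : x1 ≠ 0)
    (hy : y1 ≠ 0) : MvPolynomial.eval ![x0, x1, y0, y1] G = x1 ^ a * y1 ^ b *
      (((dg G).map (Polynomial.evalRingHom (x0 / x1))).eval (y0 / y1)) := by
  rw [MvPolynomial.eval_eq', dg, Polynomial.map_sum, Polynomial.eval_finsetSum, mul_sum]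
  refine sum_congr rfl fun m hm => ?_
  obtain ⟨h1, h2⟩ := hab m hm
  rw [Fin.prod_univ_four, Polynomial.map_monomial, Polynomial.eval_monomial,
    Polynomial.coe_evalRingHom, Polynomial.eval_monomial, ← h1, ← h2]
  show G.coeff m * (x0 ^ m 0 * x1 ^ m 1 * y0 ^ m 2 * y1 ^ m 3) = _
  rw [pow_add, pow_add, div_pow, div_pow]
  have e1 : x1 ^ m 0 ≠ 0 := pow_ne_zero _ hx
  have e2 : y1 ^ m 2 ≠ 0 := pow_ne_zero _ hy
  field_simp

open Classical in
/-- the affine coordinate -/
noncomputable def ph (P : Projectivization K (Fin 2 → K)) : Option K :=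
  if P.rep 1 = 0 then none else some (P.rep 0 / P.rep 1)

theorem ph_inj : Function.Injective (ph (K := K)) := by
  intro P Q h
  rw [← P.mk_rep, ← Q.mk_rep]
  have hP := P.rep_nonzero
  have hQ := Q.rep_nonzero
  unfold ph at h
  by_cases h1 : P.rep 1 = 0
  · by_cases h2 : Q.rep 1 = 0
    · have hP0 : P.rep 0 ≠ 0 := by
        intro e
        apply hP
        funext i
        fin_cases i
        · exact e
        · exact h1
      have hQ0 : Q.rep 0 ≠ 0 := by
        intro e
        apply hQ
        funext i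
        fin_cases i
        · exact e
        · exact h2
      refine (Projectivization.mk_eq_mk_iff' K _ _ _ _).2 ⟨P.rep 0 / Q.rep 0, ?_⟩
      funext i
      fin_cases i
      · show P.rep 0 / Q.rep 0 * Q.rep 0 = P.rep 0
        exact div_mul_cancel₀ _ hQ0
      · show P.rep 0 / Q.rep 0 * Q.rep 1 = P.rep 1
        rw [h1, h2, mul_zero]
    · rw [if_pos h1, if_neg h2] at h
      exact absurd h (by simp)
  · by_cases h2 : Q.rep 1 = 0
    · rw [if_neg h1, if_pos h2] at h
      exact absurd h (by simp)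
    · rw [if_neg h1, if_neg h2] at h
      have h3 : P.rep 0 / P.rep 1 = Q.rep 0 / Q.rep 1 := Option.some_injective _ h
      refine (Projectivization.mk_eq_mk_iff' K _ _ _ _).2 ⟨P.rep 1 / Q.rep 1, ?_⟩
      funext i
      fin_cases i
      · show P.rep 1 / Q.rep 1 * Q.rep 0 = P.rep 0
        rw [div_mul_eq_mul_div, mul_div_assoc, ← h3]
        exact mul_div_cancel₀ _ h1
      · show P.rep 1 / Q.rep 1 * Q.rep 1 = P.rep 1
        exact div_mul_cancel₀ _ h2

theorem ph_some {P : Projectivization K (Fin 2 → K)} {s : K} (h : ph P = some s) :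
    P.rep 1 ≠ 0 ∧ s = P.rep 0 / P.rep 1 := by
  unfold ph at h
  by_cases h1 : P.rep 1 = 0
  · rw [if_pos h1] at h
    exact absurd h (by simp)
  · rw [if_neg h1] at h
    exact ⟨h1, (Option.some_injective _ h).symm⟩

open Classical in
theorem cnt (E : Finset (Option K)) (g : Polynomial (Polynomial K)) (j : ℕ) (hj : g.coeff j ≠ 0)
    (T : Finset (Option K × Option K)) (hT : ∀ p ∈ T, p.1 ∈ E ∧ p.2 ∈ E ∧ ∀ s t, p.1 = some s →
      p.2 = some t → (g.map (Polynomial.evalRingHom s)).eval t = 0) :
    T.card ≤ ((1 + (g.coeff j).natDegree) + (1 + g.natDegree)) * E.card := by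
  have hr : ∀ (p : Polynomial K) (n : ℕ), p.natDegree ≤ n →
      (insert none (p.roots.toFinset.image some)).card ≤ 1 + n := by
    intro p n hn
    refine (card_insert_le _ _).trans ?_
    have h1 : (p.roots.toFinset.image some).card ≤ p.roots.toFinset.card := card_image_le
    have h2 := p.roots.toFinset_card_le
    have h3 := p.card_roots'
    omega
  obtain ⟨R, hR⟩ : ∃ R : Option K → Finset (Option K), ∀ s, R (some s) =
      insert none ((g.map (Polynomial.evalRingHom s)).roots.toFinset.image some) ∧ R none = ∅ :=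
    ⟨fun u => match u with
      | none => ∅
      | some s => insert none ((g.map (Polynomial.evalRingHom s)).roots.toFinset.image some),
      fun s => ⟨rfl, rfl⟩⟩
  have hsub : T ⊆ (insert none ((g.coeff j).roots.toFinset.image some)) ×ˢ E ∪
      E.biUnion fun u => (R u).image (Prod.mk u) := by
    rintro ⟨u, v⟩ huv
    obtain ⟨hu, hv, h⟩ := hT _ huv
    simp only at hu hv h
    rw [mem_union, mem_product, mem_biUnion]
    cases u with
    | none =>
      left
      exact ⟨mem_insert_self _ _, hv⟩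
    | some s =>
      by_cases hs : (g.coeff j).eval s = 0
      · left
        refine ⟨mem_insert_of_mem (mem_image_of_mem _ ?_), hv⟩
        rw [Multiset.mem_toFinset, Polynomial.mem_roots hj]
        exact hs
      · right
        refine ⟨some s, hu, mem_image_of_mem _ ?_⟩
        rw [(hR s).1]
        cases v with
        | none => exact mem_insert_self _ _
        | some t =>
          refine mem_insert_of_mem (mem_image_of_mem _ ?_)
          rw [Multiset.mem_toFinset, Polynomial.mem_roots]
          · exact h s t rfl rfl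
          · intro h0
            apply hs
            have h1 := congrArg (fun q : Polynomial K => q.coeff j) h0
            simp only [Polynomial.coeff_map, Polynomial.coeff_zero] at h1
            exact h1
  refine (card_le_card hsub).trans ((card_union_le _ _).trans ?_)
  rw [add_mul, card_product]
  refine add_le_add (Nat.mul_le_mul_right _ (hr _ _ le_rfl)) ?_
  refine card_biUnion_le.trans ?_
  rw [mul_comm]
  refine (sum_le_card_nsmul _ _ (1 + g.natDegree) ?_).trans (le_of_eq (smul_eq_mul _ _))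
  intro u _
  refine card_image_le.trans ?_
  cases u with
  | none =>
    have h0 : R none = ∅ := (hR 0).2
    rw [h0, card_empty]
    exact Nat.zero_le _
  | some s =>
    rw [(hR s).1]
    exact hr _ _ Polynomial.natDegree_map_le

end

/-- **Rational points on a curve of `P¹ × P¹`.** -/
theorem zarg (K : Type) [Field K] [NumberField K] : S_ZARG K := by
  classical
  intro G hG hB
  obtain ⟨a, b, hab⟩ := hB
  obtain ⟨j, hj⟩ := dg_ne hG hab
  obtain ⟨C, hC, hcount⟩ := Pool.Agent.N906.EQ.count_le K 2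
  obtain ⟨M, hM⟩ : ∃ M : ℕ, M = (1 + ((dg G).coeff j).natDegree) + (1 + (dg G).natDegree) :=
    ⟨_, rfl⟩
  have hM0 : (0 : ℝ) < M := by
    have : 0 < M := by omega
    exact_mod_cast this
  refine ⟨M * C, by positivity, fun X hX => ?_⟩
  have hd : 0 < Module.finrank ℚ K := Module.finrank_pos
  have hd' : (0 : ℝ) < Module.finrank ℚ K := by exact_mod_cast hd
  obtain ⟨hfin, hcard⟩ := hcount (Real.exp (X / Module.finrank ℚ K))
    (Real.one_le_exp (by positivity))
  have hexp : Real.exp (X / Module.finrank ℚ K) ^ (Module.finrank ℚ K) = Real.exp X := by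
    rw [← Real.exp_nat_mul]
    congr 1
    field_simp
  have hexp2 : Real.exp (X / Module.finrank ℚ K) ^ (2 * Module.finrank ℚ K) =
      Real.exp (2 * X) := by
    rw [mul_comm 2, pow_mul, hexp, ← Real.exp_nat_mul]
    norm_num
  rw [hexp2, hexp] at hcard
  rw [hexp] at hfin
  have hmem : ∀ P : Projectivization K (Fin 2 → K), Height.logHeight P.rep ≤ X →
      P ∈ hfin.toFinset := by
    intro P hP
    rw [Set.Finite.mem_toFinset]
    show Height.mulHeight P.rep ≤ Real.exp X
    rw [← Real.log_le_iff_le_exp (Height.mulHeight_pos _)]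
    exact hP
  have hsub : {p : Projectivization K (Fin 2 → K) × Projectivization K (Fin 2 → K) |
      Height.logHeight p.1.rep ≤ X ∧ Height.logHeight p.2.rep ≤ X ∧ ev4 G p.1 p.2 = 0} ⊆
      ((hfin.toFinset ×ˢ hfin.toFinset).filter fun p => ev4 G p.1 p.2 = 0 : Finset _) := by
    rintro p ⟨h1, h2, h3⟩
    rw [mem_coe, mem_filter, mem_product]
    exact ⟨⟨hmem _ h1, hmem _ h2⟩, h3⟩
  refine ⟨(Finset.finite_toSet _).subset hsub, ?_⟩
  have h1 := Set.ncard_le_ncard hsub (Finset.finite_toSet _)
  rw [Set.ncard_coe_finset] at h1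
  have h2 : ((hfin.toFinset ×ˢ hfin.toFinset).filter fun p => ev4 G p.1 p.2 = 0).card ≤
      M * hfin.toFinset.card := by
    have hinj : Function.Injective (Prod.map (ph (K := K)) (ph (K := K))) :=
      ph_inj.prodMap ph_inj
    rw [← card_image_of_injective _ hinj, ← card_image_of_injective hfin.toFinset ph_inj, hM]
    refine cnt _ (dg G) j hj _ ?_
    intro p hp
    obtain ⟨⟨P, Q⟩, hPQ, rfl⟩ := mem_image.1 hp
    rw [mem_filter, mem_product] at hPQ
    refine ⟨mem_image_of_mem _ hPQ.1.1, mem_image_of_mem _ hPQ.1.2, ?_⟩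
    intro s t hs ht
    obtain ⟨e1, e2⟩ := ph_some hs
    obtain ⟨e3, e4⟩ := ph_some ht
    have h3 := ev_dg hab (P.rep 0) (P.rep 1) (Q.rep 0) (Q.rep 1) e1 e3
    have h4 : ev4 G P Q = 0 := hPQ.2
    unfold ev4 at h4
    rw [h4, ← e2, ← e4] at h3
    exact (mul_eq_zero.1 h3.symm).resolve_left (mul_ne_zero (pow_ne_zero _ e1) (pow_ne_zero _ e3))
  have h5 : (hfin.toFinset.card : ℝ) ≤ C * Real.exp (2 * X) := by
    rw [← Set.ncard_eq_toFinset_card _ hfin]
    exact hcard
  calc _ ≤ ((M * hfin.toFinset.card : ℕ) : ℝ) := by exact_mod_cast h1.trans h2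
    _ = M * (hfin.toFinset.card : ℝ) := by push_cast; ring
    _ ≤ M * (C * Real.exp (2 * X)) := mul_le_mul_of_nonneg_left h5 hM0.le
    _ = _ := by ring

end Pool.Agent.N72.KG
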