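import Pool.Agent.N91.LC.Path

set_option autoImplicit false

/-!
Subtask LC/CLAIM: the commit claim for the Lion (S_CLAIM) from S_FNP, S_FNG, S_GPATH, S_LA.
-/

namespace Pool.Agent.N72.LCCLAIM

open Real Pool.Agent.N91.LC

/-- points at distance 0 have the same value of Fn -/
theorem Fn_eq (hFNP : S_FNP) {x y : X} (h : dist x y = 0) (n : ℕ) : Fn n x.P = Fn n y.P := by
  have hp : Pth (fun t : ℝ => if t ≤ 0 then (fun _ => x) t else (fun _ => y) (t - 0)) :=
    glue_pth le_rfl (const_pth x) (const_pth y) h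
  have key : ∀ ε : ℝ, 0 < ε → |Fn n x.P - Fn n y.P| ≤ ε := by
    intro ε hε
    have := hFNP n _ hp 0 ε le_rfl hε.le
    simp only [le_refl, if_true, not_le.2 hε, if_false, zero_sub, abs_neg] at this
    rw [abs_of_pos hε] at this
    exact this
  have h0 : |Fn n x.P - Fn n y.P| ≤ 0 := le_of_forall_pos_le_add (fun ε hε => by
    rw [zero_add]; exact key ε hε)
  have := abs_nonpos_iff.1 h0
  linarith

/-- points at distance 0 that are not exits have the same level -/
theorem g_eq (hLA : S_LA) {x y : X} (h : dist x y = 0) (hE : 0 < EE x.P) : x.P.g = y.P.g := by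
  have h1 := hLA x y (by rw [h]; exact hE) (by rw [h]; norm_num)
  rw [h] at h1
  have h2 : log (A x.P.g) = log (A y.P.g) := by
    have := abs_nonpos_iff.1 h1
    linarith
  have h3 : A x.P.g = A y.P.g := by
    have := congrArg exp h2
    rwa [exp_log (A_pos _), exp_log (A_pos _)] at this
  have h4 : x.P.g ^ 2 = y.P.g ^ 2 := by
    have e1 := A_sq x.P.g
    have e2 := A_sq y.P.g
    rw [h3] at e1
    linarith
  have h5 := x.ok.g0
  have h6 := y.ok.g0
  nlinarith [sq_nonneg (x.P.g - y.P.g), sq_nonneg (x.P.g + y.P.g),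
    (pow_left_inj₀ h5 h6 (two_ne_zero)).1 h4]

theorem claim (hFNP : S_FNP) (hFNG : S_FNG) (hGP : S_GPATH) (hLA : S_LA) : S_CLAIM := by
  intro f hf hf0
  by_contra hcon
  push Not at hcon
  -- elementary constants
  have hp0 : pp 0 = 1 / 10000 := by unfold pp p0; norm_num
  have hpp : ∀ n, 0 < pp n := pp_pos
  have hple : ∀ n, pp n ≤ 1 / 10000 := fun n => by
    have := pp_le n; unfold p0 at this; exact this
  have hq0 : q0 = 1 / 10000 := rfl
  -- EE along the path
  have hE0 : 0.005 ≤ EE (f 0).P := by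
    have h1 := X.EE_lip (f 0) x0
    rw [hf0] at h1
    have h2 : EE (f 0).P = EE x0.P := by
      have := abs_nonpos_iff.1 h1; linarith
    rw [h2]
    unfold x0
    rw [gamX_P le_rfl (by rw [hq0]; norm_num)]
    exact gam_EE_ge le_rfl (by rw [hq0]; norm_num)
  have hE : ∀ t, 0 ≤ t → t ≤ 3 / 2 * pp 0 → 0 < EE (f t).P := by
    intro t ht ht0
    have h1 := hf.pot X.EE_lip le_rfl ht
    rw [zero_sub, abs_neg, abs_of_nonneg ht] at h1
    have h2 := (abs_le.1 h1).2
    rw [hp0] at ht0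
    linarith
  have hQ0 : QQ (f 0).P = 0 := by
    have h1 := X.QQ_lip (f 0) x0
    rw [hf0] at h1
    have h2 : QQ (f 0).P = QQ x0.P := by
      have := abs_nonpos_iff.1 h1; linarith
    rw [h2]
    unfold x0
    rw [gamX_P le_rfl (by rw [hq0]; norm_num)]
    exact QQ_gam le_rfl (by rw [hq0]; norm_num)
  -- touches
  let K : Set ℝ := {t | Metric.infDist (f t) GamS = 0}
  have hK0 : (0 : ℝ) ∈ K := by
    show Metric.infDist (f 0) GamS = 0
    apply le_antisymm _ Metric.infDist_nonneg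
    have := infDist_le_gam (f 0) (q := 0) le_rfl (by rw [hq0]; norm_num)
    have h2 : dist (f 0) (gamX 0) = 0 := hf0
    linarith
  have htouch : ∀ t, 0 ≤ t → t ≤ 3 / 2 * pp 0 → t ∈ K → ∃ q, 0 ≤ q ∧ q ≤ q0 ∧ q ≤ t ∧
      (f t).P.g = (gam q).g ∧ ∀ n, RR + pp n - q / 3 ≤ Fn n (f t).P := by
    intro t ht ht0 htK
    obtain ⟨q, hq, hq1, hd⟩ := touch htK
    refine ⟨q, hq, hq1, ?_, ?_, ?_⟩
    · have h1 := X.QQ_lip (f t) (gamX q)
      rw [hd] at h1
      have h2 : QQ (f t).P = QQ (gamX q).P := by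
        have := abs_nonpos_iff.1 h1; linarith
      rw [gamX_P hq hq1, QQ_gam hq hq1] at h2
      have h3 := hf.pot X.QQ_lip ht le_rfl
      rw [sub_zero, abs_of_nonneg ht, hQ0, h2, sub_zero] at h3
      exact (le_abs_self q).trans h3
    · have := g_eq hLA hd (hE t ht ht0)
      rw [this, gamX_P hq hq1]
    · intro n
      rw [Fn_eq hFNP hd n, gamX_P hq hq1]
      exact hFNG n q hq hq1
  -- closedness of the set of touches
  have hKc : ∀ a b : ℝ, 0 ≤ a → IsCompact (K ∩ Set.Icc a b) := by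
    intro a b ha
    have hcont : ContinuousOn (fun t => Metric.infDist (f t) GamS) (Set.Icc a b) := by
      have h1 : ContinuousOn f (Set.Icc a b) := hf.cont.mono (fun t ht => ha.trans ht.1)
      exact (Metric.continuous_infDist_pt GamS).comp_continuousOn h1
    have h2 : IsClosed (Set.Icc a b ∩ (fun t => Metric.infDist (f t) GamS) ⁻¹' {0}) :=
      hcont.preimage_isClosed_of_isClosed isClosed_Icc isClosed_singleton
    have h3 : K ∩ Set.Icc a b = Set.Icc a b ∩ (fun t => Metric.infDist (f t) GamS) ⁻¹' {0} := by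
      ext t; constructor
      · rintro ⟨h, h'⟩; exact ⟨h', h⟩
      · rintro ⟨h, h'⟩; exact ⟨h', h⟩
    rw [h3]
    exact isCompact_Icc.of_isClosed_subset h2 Set.inter_subset_left
  -- pp is antitone
  have hpp0 : ∀ n, pp n ≤ pp 0 := fun n => by rw [hp0]; exact hple n
  -- STEP
  have step : ∀ n t, 3 / 2 * pp (n + 1) < t → t ≤ 3 / 2 * pp n → t ∉ K := by
    intro n t ht1 ht2 htK
    have hs := pp_succ n
    have hn1 := hpp (n + 1)
    have hn := hpp n
    have hτ0 : (0:ℝ) ≤ 3 / 2 * pp (n + 1) := by positivity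
    -- last touch before tau_{n+1}
    obtain ⟨t', ht', ht'max⟩ := (hKc 0 (3 / 2 * pp (n + 1)) le_rfl).exists_isGreatest
      ⟨0, hK0, le_rfl, hτ0⟩
    obtain ⟨t1, ht1K, ht1min⟩ := (hKc (3 / 2 * pp (n + 1)) (3 / 2 * pp n) hτ0).exists_isLeast
      ⟨t, htK, ht1.le, ht2⟩
    have hτn : 3 / 2 * pp n ≤ 3 / 2 * pp 0 := by have := hpp0 n; linarith
    have hτn1 : 3 / 2 * pp (n + 1) ≤ 3 / 2 * pp 0 := by have := hpp0 (n + 1); linarith
    obtain ⟨q', hq'0, hq'1, hq't, hq'g, hq'F⟩ := htouch t' ht'.2.1 (ht'.2.2.trans hτn1) ht'.1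
    obtain ⟨q, hq0', hq1, hqt, hqg, hqF⟩ :=
      htouch t1 (hτ0.trans ht1K.2.1) (ht1K.2.2.trans hτn) ht1K.1
    have hR1 := (hcon (n + 1)).1
    have hR0 := (hcon n).1
    -- tau_{n+1} is not a touch
    have hno : 3 / 2 * pp (n + 1) ∉ K := by
      intro hmem
      obtain ⟨r, hr0, hr1, hrt, -, hrF⟩ := htouch _ hτ0 hτn1 hmem
      have := hrF (n + 1)
      linarith
    have hlt' : t' < 3 / 2 * pp (n + 1) := by
      rcases lt_or_eq_of_le ht'.2.2 with h | h
      · exact h
      · exact absurd (h ▸ ht'.1) hno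
    have hlt1 : 3 / 2 * pp (n + 1) < t1 := by
      rcases lt_or_eq_of_le ht1K.2.1 with h | h
      · exact h
      · exact absurd (h ▸ ht1K.1) hno
    -- first estimate
    have e1 := hFNP (n + 1) f hf t' (3 / 2 * pp (n + 1)) ht'.2.1 hτ0
    rw [abs_sub_comm t', abs_of_pos (sub_pos.2 hlt')] at e1
    have e1' := (abs_le.1 e1).2
    have e2 := hq'F (n + 1)
    have hq'le : q' ≤ 3 / 4 * pp (n + 1) := by linarith
    -- level estimate
    have e3 := (hGP f hf t' t1 ht'.2.1 (hlt'.trans hlt1)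
      (fun s hs1 hs2 => hE s (ht'.2.1.trans hs1) (hs2.trans (ht1K.2.2.trans hτn)))
      (fun s hs1 hs2 => by
        apply lt_of_le_of_ne Metric.infDist_nonneg
        intro h0
        have hsK : s ∈ K := h0.symm
        rcases le_or_gt s (3 / 2 * pp (n + 1)) with h | h
        · exact absurd (ht'max ⟨hsK, ht'.2.1.trans hs1.le, h⟩) (not_le.2 hs1)
        · exact absurd (ht1min ⟨hsK, h.le, hs2.le.trans ht1K.2.2⟩) (not_le.2 hs2))).1
    rw [hq'g, hqg] at e3
    have e4 : exp (2 * q) - 1 ≤ exp (t1 - t') ^ 2 * (exp (2 * q') - 1) := by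
      rw [← gam_g_sq hq0', ← gam_g_sq hq'0, ← mul_pow]
      exact pow_le_pow_left₀ (gam_g_nonneg q) e3 2
    have e5 : exp (t1 - t') ^ 2 ≤ 1.001 := by
      rw [← exp_nat_mul]
      have h1 : ((2:ℕ):ℝ) * (t1 - t') ≤ 3 / 10000 := by
        push_cast
        have := ht1K.2.2.trans hτn
        rw [hp0] at this
        linarith [ht'.2.1]
      have h2 := exp_upper (x := 3 / 10000) (by norm_num) (by norm_num)
      have h3 := exp_le_exp.2 h1
      exact h3.trans (h2.trans (by norm_num))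
    have e6 : exp (2 * q') - 1 ≤ 2 * q' + (2 * q') ^ 2 := by
      have h1 : q' ≤ 1 / 10000 := hq'1
      have := exp_upper (x := 2 * q') (by linarith) (by linarith)
      linarith
    have e7 : 2 * q ≤ exp (2 * q) - 1 := by
      have := add_one_le_exp (2 * q); linarith
    have hqq : q ≤ 1.01 * q' := by
      have h1 : 0 ≤ exp (2 * q') - 1 := by
        have := one_le_exp (x := 2 * q') (by linarith); linarith
      have h2 : exp (t1 - t') ^ 2 * (exp (2 * q') - 1) ≤ 1.001 * (2 * q' + (2 * q') ^ 2) :=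
        mul_le_mul e5 e6 h1 (by norm_num)
      have h3 : (2 * q') ^ 2 ≤ 2 * q' * (2 / 10000) := by
        have h1 : q' ≤ 1 / 10000 := hq'1
        nlinarith
      nlinarith
    -- final estimates
    have e8 := hFNP (n + 1) f hf t1 (3 / 2 * pp (n + 1)) (hτ0.trans hlt1.le) hτ0
    rw [abs_of_pos (sub_pos.2 hlt1)] at e8
    have e8' := (abs_le.1 e8).2
    have e9 := hqF (n + 1)
    have e10 := hFNP n f hf t1 (3 / 2 * pp n) (hτ0.trans hlt1.le) (by positivity)
    rw [abs_sub_comm t1, abs_of_nonneg (sub_nonneg.2 ht1K.2.2)] at e10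
    have e10' := (abs_le.1 e10).2
    have e11 := hqF n
    linarith
  -- no touch in (0, tau_0]
  have hlim : Filter.Tendsto (fun n : ℕ => 3 / 2 * pp n) Filter.atTop (nhds 0) := by
    have h1 : Filter.Tendsto (fun n : ℕ => ((1:ℝ) / 3) ^ n) Filter.atTop (nhds 0) :=
      tendsto_pow_atTop_nhds_zero_of_lt_one (by norm_num) (by norm_num)
    have h2 := h1.const_mul (3 / 2 * p0)
    rw [mul_zero] at h2
    refine h2.congr (fun n => ?_)
    unfold pp; ring
  have hnone : ∀ t, 0 < t → t ≤ 3 / 2 * pp 0 → t ∉ K := by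
    intro t ht ht0
    obtain ⟨N, hN⟩ := (hlim.eventually (gt_mem_nhds ht)).exists
    -- least N with tau_N < t
    classical
    have hex : ∃ n, 3 / 2 * pp n < t := ⟨N, hN⟩
    have hf1 := Nat.find_spec hex
    have hf2 : ∀ m, m < Nat.find hex → ¬ (3 / 2 * pp m < t) := fun m hm => Nat.find_min hex hm
    rcases Nat.eq_zero_or_pos (Nat.find hex) with h | h
    · rw [h] at hf1; linarith
    · obtain ⟨m, hm⟩ : ∃ m, Nat.find hex = m + 1 := ⟨Nat.find hex - 1, by omega⟩
      have h3 := hf2 m (by omega)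
      rw [hm] at hf1
      exact step m t hf1 (not_lt.1 h3)
  -- conclusion
  have hτ : (0:ℝ) < 3 / 2 * pp 0 := by rw [hp0]; norm_num
  have e := (hGP f hf 0 (3 / 2 * pp 0) le_rfl hτ hE
    (fun s hs1 hs2 => lt_of_le_of_ne Metric.infDist_nonneg
      (fun h0 => hnone s hs1 hs2.le h0.symm))).1
  have hg0 : (f 0).P.g = 0 := by
    have h1 : dist (f 0) (gamX 0) = 0 := hf0
    rw [g_eq hLA h1 (hE 0 le_rfl hτ.le), gamX_P le_rfl (by rw [hq0]; norm_num)]
    have := gam_g_sq (q := 0) le_rfl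
    rw [mul_zero, exp_zero, sub_self] at this
    exact pow_eq_zero_iff (two_ne_zero) |>.1 this
  rw [hg0, mul_zero] at e
  exact (hcon 0).2 (le_antisymm e (f (3 / 2 * pp 0)).ok.g0)

end Pool.Agent.N72.LCCLAIM
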