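import Pool.Agent.N795.LN.Stm
import Pool.Agent.N803.STCmp

/-!
# Project LN: expansion to first order in additional rates, theorem `one_step : OneStep` (helper72)
-/

set_option autoImplicit false

namespace Pool.Agent.N795.LN

open Finset Equiv
open Pool.Agent.TH268.PD (law PJ UnifLaw unif_law)

namespace H72One

open Pool.Agent.N795.ST.N803Cmp (four mono)

variable {V : Type} [Fintype V] [DecidableEq V]

/-- one letter of `U` -/
noncomputable def UU (U : V → V → ℝ) (F : Perm V → ℝ) (g : Perm V) : ℝ :=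
  ∑ x, ∑ y, U x y / 2 * F (g * swap x y)

/-- the two sided property -/
def Pr' (U : V → V → ℝ) (F H : Perm V → ℝ) : Prop := ∀ g₁ g₂ : Perm V,
  H (g₁ * g₂) ≤ ∑ x, ∑ y, U x y / 2 * (F (g₁ * swap x y * g₂) - F (g₁ * g₂))

lemma PJ_eq (J : V → V → ℝ) {R : ℝ} (hR : 0 < R) (F : Perm V → ℝ) (g : Perm V) :
    R * PJ J R F g = UU J F g + (R - ∑ x, ∑ y, J x y / 2) * F g := by
  unfold PJ UU
  field_simp

lemma UU_mono {U : V → V → ℝ} (hU : ∀ x y, 0 ≤ U x y) {F F' : Perm V → ℝ}
    (h : ∀ g, F g ≤ F' g) (g : Perm V) : UU U F g ≤ UU U F' g := by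
  unfold UU
  refine Finset.sum_le_sum fun x _ => Finset.sum_le_sum fun y _ => ?_
  exact mul_le_mul_of_nonneg_left (h _) (div_nonneg (hU x y) two_pos.le)

lemma UU_nonneg {U : V → V → ℝ} (hU : ∀ x y, 0 ≤ U x y) {F : Perm V → ℝ}
    (h : ∀ g, 0 ≤ F g) (g : Perm V) : 0 ≤ UU U F g := by
  unfold UU
  refine Finset.sum_nonneg fun x _ => Finset.sum_nonneg fun y _ => ?_
  exact mul_nonneg (div_nonneg (hU x y) two_pos.le) (h _)

lemma PJ_mono {J : V → V → ℝ} {R : ℝ} (hR : 0 < R) (hJ : ∀ x y, 0 ≤ J x y)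
    (hRJ : ∑ x, ∑ y, J x y / 2 ≤ R) {F F' : Perm V → ℝ} (h : ∀ g, F g ≤ F' g) (g : Perm V) :
    PJ J R F g ≤ PJ J R F' g := by
  have := mono (c := 0) hR hJ hRJ (F := F) (F' := F') (fun g => by linarith [h g]) g
  linarith

lemma PJ_zero (J : V → V → ℝ) (R : ℝ) (g : Perm V) : PJ J R (fun _ => 0) g = 0 := by
  unfold PJ; simp

lemma PJ_nonneg {J : V → V → ℝ} {R : ℝ} (hR : 0 < R) (hJ : ∀ x y, 0 ≤ J x y)
    (hRJ : ∑ x, ∑ y, J x y / 2 ≤ R) {F : Perm V → ℝ} (h : ∀ g, 0 ≤ F g) (g : Perm V) :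
    0 ≤ PJ J R F g := by
  have := PJ_mono hR hJ hRJ (F := fun _ => 0) (F' := F) h g
  rwa [PJ_zero] at this

lemma PJ_iter_mono {J : V → V → ℝ} {R : ℝ} (hR : 0 < R) (hJ : ∀ x y, 0 ≤ J x y)
    (hRJ : ∑ x, ∑ y, J x y / 2 ≤ R) {F F' : Perm V → ℝ} (h : ∀ g, F g ≤ F' g) (n : ℕ) :
    ∀ g : Perm V, ((PJ J R)^[n] F) g ≤ ((PJ J R)^[n] F') g := by
  induction n with
  | zero => exact h
  | succ n ih =>
    intro g
    rw [Function.iterate_succ_apply', Function.iterate_succ_apply']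
    exact PJ_mono hR hJ hRJ ih g

lemma PJ_const (J : V → V → ℝ) {R : ℝ} (hR : 0 < R) (c : ℝ) :
    PJ J R (fun _ => c) = fun _ => c := by
  funext g
  unfold PJ
  rw [div_eq_iff hR.ne']
  simp only [← Finset.sum_mul]
  ring

lemma PJ_iter_const (J : V → V → ℝ) {R : ℝ} (hR : 0 < R) (c : ℝ) (n : ℕ) :
    (PJ J R)^[n] (fun _ => c) = fun _ => c := by
  induction n with
  | zero => rfl
  | succ n ih => rw [Function.iterate_succ_apply', ih, PJ_const J hR]

/-- linearity -/
lemma PJ_add_smul (J : V → V → ℝ) (R c : ℝ) (F H : Perm V → ℝ) :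
    PJ J R (fun g => H g + c * F g) = fun g => PJ J R H g + c * PJ J R F g := by
  funext g
  unfold PJ
  have e : ∑ x, ∑ y, J x y / 2 * (H (g * swap x y) + c * F (g * swap x y)) =
      ∑ x, ∑ y, J x y / 2 * H (g * swap x y) + c * ∑ x, ∑ y, J x y / 2 * F (g * swap x y) := by
    rw [Finset.mul_sum, ← Finset.sum_add_distrib]
    refine Finset.sum_congr rfl fun x _ => ?_
    rw [Finset.mul_sum, ← Finset.sum_add_distrib]
    refine Finset.sum_congr rfl fun y _ => ?_
    ring
  rw [e]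
  ring

lemma PJ_iter_add_smul (J : V → V → ℝ) (R c : ℝ) (F H : Perm V → ℝ) (n : ℕ) :
    (PJ J R)^[n] (fun g => H g + c * F g) =
      fun g => ((PJ J R)^[n] H) g + c * ((PJ J R)^[n] F) g := by
  induction n with
  | zero => rfl
  | succ n ih =>
    rw [Function.iterate_succ_apply', Function.iterate_succ_apply', Function.iterate_succ_apply',
      ih, PJ_add_smul]

lemma PJ_pr' {J U : V → V → ℝ} {R : ℝ} (hR : 0 < R) (hJ : ∀ x y, 0 ≤ J x y)
    (hRJ : ∑ x, ∑ y, J x y / 2 ≤ R) {F H : Perm V → ℝ} (hF : Pr' U F H) :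
    Pr' U (PJ J R F) (PJ J R H) := by
  intro g₁ g₂
  have key : ∑ x, ∑ y, U x y / 2 * (PJ J R F (g₁ * swap x y * g₂) - PJ J R F (g₁ * g₂)) =
      (∑ a, ∑ b, J a b / 2 * (∑ x, ∑ y, U x y / 2 *
          (F (g₁ * swap x y * (g₂ * swap a b)) - F (g₁ * (g₂ * swap a b)))) +
        (R - ∑ a, ∑ b, J a b / 2) *
          (∑ x, ∑ y, U x y / 2 * (F (g₁ * swap x y * g₂) - F (g₁ * g₂)))) / R := by
    rw [← four (fun a b => J a b / 2) (fun x y => U x y / 2)
      (fun x y a b => F (g₁ * swap x y * (g₂ * swap a b)) - F (g₁ * (g₂ * swap a b)))]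
    rw [Finset.mul_sum, ← Finset.sum_add_distrib, Finset.sum_div]
    refine Finset.sum_congr rfl fun x _ => ?_
    rw [Finset.mul_sum, ← Finset.sum_add_distrib, Finset.sum_div]
    refine Finset.sum_congr rfl fun y _ => ?_
    unfold PJ
    have e : ∑ a, ∑ b, J a b / 2 *
        (F (g₁ * swap x y * (g₂ * swap a b)) - F (g₁ * (g₂ * swap a b))) =
        ∑ a, ∑ b, J a b / 2 * F (g₁ * swap x y * g₂ * swap a b) -
          ∑ a, ∑ b, J a b / 2 * F (g₁ * g₂ * swap a b) := by
      rw [← Finset.sum_sub_distrib]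
      refine Finset.sum_congr rfl fun a _ => ?_
      rw [← Finset.sum_sub_distrib]
      refine Finset.sum_congr rfl fun b _ => ?_
      rw [mul_sub, ← mul_assoc (g₁ * swap x y) g₂, ← mul_assoc g₁ g₂]
    simp only [e]
    ring
  rw [key, PJ]
  refine div_le_div_of_nonneg_right (add_le_add ?_ ?_) hR.le
  · refine Finset.sum_le_sum fun a _ => Finset.sum_le_sum fun b _ => ?_
    rw [mul_assoc g₁ g₂ (swap a b)]
    exact mul_le_mul_of_nonneg_left (hF g₁ (g₂ * swap a b)) (div_nonneg (hJ a b) two_pos.le)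
  · exact mul_le_mul_of_nonneg_left (hF g₁ g₂) (by linarith)

lemma PJ_iter_pr' {J U : V → V → ℝ} {R : ℝ} (hR : 0 < R) (hJ : ∀ x y, 0 ≤ J x y)
    (hRJ : ∑ x, ∑ y, J x y / 2 ≤ R) {F H : Perm V → ℝ} (hF : Pr' U F H) (n : ℕ) :
    Pr' U ((PJ J R)^[n] F) ((PJ J R)^[n] H) := by
  induction n with
  | zero => exact hF
  | succ n ih =>
    rw [Function.iterate_succ_apply', Function.iterate_succ_apply']
    exact PJ_pr' hR hJ hRJ ih

lemma pr'_one {U : V → V → ℝ} {F H : Perm V → ℝ} (hF : Pr' U F H) (g : Perm V) :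
    H g + (∑ x, ∑ y, U x y / 2) * F g ≤ UU U F g := by
  have h := hF g 1
  simp only [mul_one] at h
  have e : ∑ x, ∑ y, U x y / 2 * (F (g * swap x y) - F g) =
      UU U F g - (∑ x, ∑ y, U x y / 2) * F g := by
    unfold UU
    simp only [mul_sub, Finset.sum_sub_distrib, ← Finset.sum_mul]
  rw [e] at h
  linarith

/-- the words with exactly one letter of `U` -/
noncomputable def BB (J U : V → V → ℝ) (R : ℝ) (F : Perm V → ℝ) : ℕ → Perm V → ℝ
  | 0 => fun _ => 0
  | n + 1 => fun g => R * PJ J R (BB J U R F n) g + R ^ n * UU U ((PJ J R)^[n] F) g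

lemma iter_nonneg {J : V → V → ℝ} {R : ℝ} (hR : 0 < R) (hJ : ∀ x y, 0 ≤ J x y)
    (hRJ : ∑ x, ∑ y, J x y / 2 ≤ R) {F : Perm V → ℝ} (h : ∀ g, 0 ≤ F g) (n : ℕ) (g : Perm V) :
    0 ≤ ((PJ J R)^[n] F) g := by
  have := PJ_iter_mono hR hJ hRJ (F := fun _ => 0) (F' := F) h n g
  rwa [PJ_iter_const J hR] at this

lemma BB_nonneg {J U : V → V → ℝ} {R : ℝ} (hR : 0 < R) (hJ : ∀ x y, 0 ≤ J x y)
    (hU : ∀ x y, 0 ≤ U x y) (hRJ : ∑ x, ∑ y, J x y / 2 ≤ R) {F : Perm V → ℝ}
    (h : ∀ g, 0 ≤ F g) (n : ℕ) : ∀ g, 0 ≤ BB J U R F n g := by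
  induction n with
  | zero => intro g; exact le_refl _
  | succ n ih =>
    intro g
    exact add_nonneg (mul_nonneg hR.le (PJ_nonneg hR hJ hRJ ih g))
      (mul_nonneg (by positivity) (UU_nonneg hU (iter_nonneg hR hJ hRJ h n) g))

/-- (a) -/
lemma iter_ge {J U : V → V → ℝ} {R h : ℝ} (hR : 0 < R) (hh : 0 ≤ h) (hJ : ∀ x y, 0 ≤ J x y)
    (hU : ∀ x y, 0 ≤ U x y) (hRJ : ∑ x, ∑ y, J x y / 2 ≤ R) {F : Perm V → ℝ}
    (hF : ∀ g, 0 ≤ F g) (n : ℕ) : ∀ g,
    R ^ n * ((PJ J R)^[n] F) g + h * BB J U R F n g ≤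
      (R + h * ∑ x, ∑ y, U x y / 2) ^ n *
        ((PJ (fun x y => J x y + h * U x y) (R + h * ∑ x, ∑ y, U x y / 2))^[n] F) g := by
  have hRU : 0 ≤ ∑ x, ∑ y, U x y / 2 := Finset.sum_nonneg fun x _ =>
    Finset.sum_nonneg fun y _ => div_nonneg (hU x y) two_pos.le
  set R2 := R + h * ∑ x, ∑ y, U x y / 2 with hR2
  have hR2p : 0 < R2 := by
    have := mul_nonneg hh hRU
    linarith
  -- the operator
  have hop : ∀ (G : Perm V → ℝ) (g : Perm V),
      R2 * PJ (fun x y => J x y + h * U x y) R2 G g = R * PJ J R G g + h * UU U G g := by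
    intro G g
    rw [PJ_eq _ hR2p, PJ_eq _ hR]
    have e1 : UU (fun x y => J x y + h * U x y) G g = UU J G g + h * UU U G g := by
      unfold UU
      rw [Finset.mul_sum, ← Finset.sum_add_distrib]
      refine Finset.sum_congr rfl fun x _ => ?_
      rw [Finset.mul_sum, ← Finset.sum_add_distrib]
      refine Finset.sum_congr rfl fun y _ => ?_
      ring
    have e2 : ∑ x, ∑ y, (J x y + h * U x y) / 2 =
        ∑ x, ∑ y, J x y / 2 + h * ∑ x, ∑ y, U x y / 2 := by
      rw [Finset.mul_sum, ← Finset.sum_add_distrib]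
      refine Finset.sum_congr rfl fun x _ => ?_
      rw [Finset.mul_sum, ← Finset.sum_add_distrib]
      refine Finset.sum_congr rfl fun y _ => ?_
      ring
    rw [e1, e2, hR2]
    ring
  induction n with
  | zero => intro g; simp [BB]
  | succ n ih =>
    intro g
    rw [Function.iterate_succ_apply', Function.iterate_succ_apply', pow_succ R2, mul_assoc, hop,
      mul_add]
    set Q := (PJ (fun x y => J x y + h * U x y) R2)^[n] F with hQ
    set P := (PJ J R)^[n] F with hP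
    -- pull the power in
    have s1 : R2 ^ n * (R * PJ J R Q g) = R * PJ J R (fun g => R2 ^ n * Q g) g := by
      have := congrFun (PJ_add_smul J R (R2 ^ n) Q (fun _ => 0)) g
      simp only [zero_add, PJ_zero] at this
      rw [this]; ring
    have s2 : R2 ^ n * (h * UU U Q g) = h * UU U (fun g => R2 ^ n * Q g) g := by
      unfold UU
      rw [Finset.mul_sum, Finset.mul_sum, Finset.mul_sum]
      refine Finset.sum_congr rfl fun x _ => ?_
      rw [Finset.mul_sum, Finset.mul_sum, Finset.mul_sum]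
      refine Finset.sum_congr rfl fun y _ => ?_
      ring
    rw [s1, s2]
    have t1 := mul_le_mul_of_nonneg_left (PJ_mono hR hJ hRJ ih g) hR.le
    have t2 := mul_le_mul_of_nonneg_left (UU_mono hU ih g) hh
    have u1 : PJ J R (fun g => R ^ n * P g + h * BB J U R F n g) g =
        R ^ n * PJ J R P g + h * PJ J R (BB J U R F n) g := by
      have a1 := congrFun (PJ_add_smul J R h (BB J U R F n) (fun g => R ^ n * P g)) g
      have a2 := congrFun (PJ_add_smul J R (R ^ n) P (fun _ => 0)) g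
      simp only [zero_add, PJ_zero] at a1 a2
      rw [a1, a2]
    have u2 : UU U (fun g => R ^ n * P g + h * BB J U R F n g) g =
        R ^ n * UU U P g + h * UU U (BB J U R F n) g := by
      unfold UU
      rw [Finset.mul_sum, Finset.mul_sum, ← Finset.sum_add_distrib]
      refine Finset.sum_congr rfl fun x _ => ?_
      rw [Finset.mul_sum, Finset.mul_sum, ← Finset.sum_add_distrib]
      refine Finset.sum_congr rfl fun y _ => ?_
      ring
    rw [u1] at t1
    rw [u2] at t2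
    have u3 := mul_nonneg (mul_nonneg hh hh) (UU_nonneg hU (BB_nonneg hR hJ hU hRJ hF n) g)
    have e : BB J U R F (n + 1) g = R * PJ J R (BB J U R F n) g + R ^ n * UU U P g := rfl
    rw [e]
    have e3 : R ^ (n + 1) * PJ J R P g = R * (R ^ n * PJ J R P g) := by rw [pow_succ]; ring
    rw [e3]
    nlinarith

/-- (b) -/
lemma BB_ge {J U : V → V → ℝ} {R : ℝ} (hR : 0 < R) (hJ : ∀ x y, 0 ≤ J x y)
    (hRJ : ∑ x, ∑ y, J x y / 2 ≤ R) {F H : Perm V → ℝ}
    (hFH : Pr' U F H) (n : ℕ) : ∀ g,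
    (n + 1 : ℕ) * R ^ n *
      ((PJ J R)^[n] (fun g => H g + (∑ x, ∑ y, U x y / 2) * F g)) g ≤ BB J U R F (n + 1) g := by
  set u := ∑ x, ∑ y, U x y / 2 with hu
  have hstep : ∀ n g, ((PJ J R)^[n] (fun g => H g + u * F g)) g ≤ UU U ((PJ J R)^[n] F) g := by
    intro n g
    rw [PJ_iter_add_smul]
    exact pr'_one (PJ_iter_pr' hR hJ hRJ hFH n) g
  induction n with
  | zero =>
    intro g
    have := hstep 0 g
    have e : BB J U R F (0 + 1) g = R * PJ J R (fun _ => 0) g + R ^ 0 * UU U ((PJ J R)^[0] F) g :=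
      rfl
    rw [e, PJ_zero]
    simpa using this
  | succ n ih =>
    intro g
    have h1 := hstep (n + 1) g
    have e : BB J U R F (n + 1 + 1) g =
      R * PJ J R (BB J U R F (n + 1)) g + R ^ (n + 1) * UU U ((PJ J R)^[n + 1] F) g := rfl
    rw [e]
    have h2 := mul_le_mul_of_nonneg_left (PJ_mono hR hJ hRJ ih g) hR.le
    have h3 := mul_le_mul_of_nonneg_left h1 (show 0 ≤ R ^ (n + 1) by positivity)
    have a2 := congrFun (PJ_add_smul J R (((n + 1 : ℕ) : ℝ) * R ^ n)
      ((PJ J R)^[n] (fun g => H g + u * F g)) (fun _ => 0)) g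
    simp only [zero_add, PJ_zero] at a2
    rw [a2] at h2
    have e4 : ((PJ J R)^[n + 1] (fun g => H g + u * F g)) g =
        PJ J R ((PJ J R)^[n] (fun g => H g + u * F g)) g := by
      rw [Function.iterate_succ_apply']
    rw [e4] at h3 ⊢
    have e5 : (((n + 1 + 1 : ℕ) : ℝ)) * R ^ (n + 1) *
        PJ J R ((PJ J R)^[n] (fun g => H g + u * F g)) g =
        R * (((n + 1 : ℕ) : ℝ) * R ^ n * PJ J R ((PJ J R)^[n] (fun g => H g + u * F g)) g) +
        R ^ (n + 1) * PJ J R ((PJ J R)^[n] (fun g => H g + u * F g)) g := by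
      push_cast
      rw [pow_succ]
      ring
    rw [e5]
    exact add_le_add h2 h3

/-- comparison with a constant -/
lemma law_le {J : V → V → ℝ} {t : ℝ} (ht : 0 ≤ t) (hJ : ∀ x y, 0 ≤ J x y) {F : Perm V → ℝ}
    {c : ℝ} (h : ∀ g, F g ≤ c) : ∑ g, law J t g * F g ≤ c := by
  have hRJ : 0 ≤ ∑ x, ∑ y, J x y / 2 := Finset.sum_nonneg fun x _ =>
    Finset.sum_nonneg fun y _ => div_nonneg (hJ x y) two_pos.le
  set R := ∑ x, ∑ y, J x y / 2 + 1 with hRdef
  have hR : 0 < R := by linarith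
  have h1 := unif_law V J t R F hR
  have h2 : HasSum (fun n : ℕ => Real.exp (-(t * R)) * (t * R) ^ n / (n.factorial : ℝ) * c) c := by
    have h3 := (Pool.Agent.TH268.PD.NI.hs_exp (t * R)).mul_left (Real.exp (-(t * R)) * c)
    have h4 : Real.exp (-(t * R)) * c * Real.exp (t * R) = c := by
      have h5 : Real.exp (-(t * R)) * Real.exp (t * R) = 1 := by
        rw [← Real.exp_add, neg_add_cancel, Real.exp_zero]
      calc _ = c * (Real.exp (-(t * R)) * Real.exp (t * R)) := by ring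
        _ = c := by rw [h5, mul_one]
    rw [h4] at h3
    refine h3.congr_fun fun n => ?_
    ring
  refine hasSum_le (fun n => ?_) h1 h2
  have hc : 0 ≤ Real.exp (-(t * R)) * (t * R) ^ n / (n.factorial : ℝ) := by positivity
  refine mul_le_mul_of_nonneg_left ?_ hc
  have := PJ_iter_mono hR hJ (by linarith) (F := F) (F' := fun _ => c) h n 1
  rwa [PJ_iter_const J hR] at this

lemma law_nonneg {J : V → V → ℝ} {t : ℝ} (ht : 0 ≤ t) (hJ : ∀ x y, 0 ≤ J x y)
    {F : Perm V → ℝ} (h : ∀ g, 0 ≤ F g) : 0 ≤ ∑ g, law J t g * F g := by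
  have h1 := law_le ht hJ (F := fun g => - F g) (c := 0) (fun g => by linarith [h g])
  have e : ∑ g, law J t g * -F g = -∑ g, law J t g * F g := by
    rw [← Finset.sum_neg_distrib]
    refine Finset.sum_congr rfl fun g _ => ?_
    ring
  rw [e] at h1
  linarith

/-- the final inequality -/
lemma final {E y x : ℝ} (hE0 : 0 ≤ E) (hE1 : E ≤ 1) (hx : 0 ≤ x) (hy : y ≤ x) :
    E + y ≤ Real.exp (-x) * (E + y + x * E) + 2 * x ^ 2 := by
  have h1 : 1 - x ≤ Real.exp (-x) := by linarith [Real.add_one_le_exp (-x)]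
  have h2 : Real.exp (-x) ≤ 1 := Real.exp_le_one_iff.2 (by linarith)
  have h0 : 0 < Real.exp (-x) := Real.exp_pos _
  have a1 : E - x ^ 2 ≤ Real.exp (-x) * ((1 + x) * E) := by
    have : (1 - x) * ((1 + x) * E) ≤ Real.exp (-x) * ((1 + x) * E) :=
      mul_le_mul_of_nonneg_right h1 (by positivity)
    nlinarith [sq_nonneg x]
  have a2 : y - x ^ 2 ≤ Real.exp (-x) * y := by
    rcases le_total 0 y with h | h
    · have : (1 - x) * y ≤ Real.exp (-x) * y := mul_le_mul_of_nonneg_right h1 h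
      nlinarith
    · have : 1 * y ≤ Real.exp (-x) * y := by
        have := mul_le_mul_of_nonpos_right h2 h
        linarith
      nlinarith [sq_nonneg x]
  nlinarith

end H72One

open H72One

theorem one_step : OneStep := by
  intro V _ _ J U t h F H hJ hU ht hh hF0 hF1 hFH
  have hRJ : 0 ≤ ∑ x, ∑ y, J x y / 2 := Finset.sum_nonneg fun x _ =>
    Finset.sum_nonneg fun y _ => div_nonneg (hJ x y) two_pos.le
  have hRU : 0 ≤ ∑ x, ∑ y, U x y / 2 := Finset.sum_nonneg fun x _ =>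
    Finset.sum_nonneg fun y _ => div_nonneg (hU x y) two_pos.le
  set u := ∑ x, ∑ y, U x y / 2 with hu
  set R := ∑ x, ∑ y, J x y / 2 + 1 with hRdef
  have hR : 0 < R := by linarith
  have hRJ' : ∑ x, ∑ y, J x y / 2 ≤ R := by linarith
  set R2 := R + h * u with hR2
  have hR2p : 0 < R2 := by
    have := mul_nonneg hh hRU
    linarith
  set x := h * t * u with hx
  have hx0 : 0 ≤ x := mul_nonneg (mul_nonneg hh ht) hRU
  set E := ∑ g, law J t g * F g with hE
  set D := ∑ g, law J t g * H g with hD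
  have hE0 : 0 ≤ E := law_nonneg ht hJ hF0
  have hE1 : E ≤ 1 := law_le ht hJ hF1
  have hH : ∀ g, H g ≤ u := by
    intro g
    have h1 := pr'_one (U := U) (F := F) (H := H) hFH g
    have h2 : UU U F g ≤ u := by
      unfold UU
      rw [hu]
      refine Finset.sum_le_sum fun x _ => Finset.sum_le_sum fun y _ => ?_
      have := mul_le_mul_of_nonneg_left (hF1 (g * swap x y)) (div_nonneg (hU x y) two_pos.le)
      linarith
    have h3 := mul_nonneg hRU (hF0 g)
    linarith
  have hDu : D ≤ u := law_le ht hJ hH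
  have hy : h * t * D ≤ x := mul_le_mul_of_nonneg_left hDu (mul_nonneg hh ht)
  -- the sums
  have S2 := unif_law V (fun x y => J x y + h * U x y) t R2 F hR2p
  have S1 := unif_law V J t R F hR
  have S3 := unif_law V J t R (fun g => H g + u * F g) hR
  have e3 : ∑ g, law J t g * (H g + u * F g) = D + u * E := by
    rw [hD, hE, Finset.mul_sum, ← Finset.sum_add_distrib]
    refine Finset.sum_congr rfl fun g _ => ?_
    ring
  rw [e3] at S3
  have hex : Real.exp (-(t * R2)) = Real.exp (-x) * Real.exp (-(t * R)) := by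
    rw [← Real.exp_add]
    congr 1
    rw [hR2, hx]
    ring
  -- the shifted sum
  have S4 : HasSum (fun n : ℕ => Real.exp (-(t * R2)) * t ^ n / (n.factorial : ℝ) *
      (h * (n * R ^ (n - 1) * ((PJ J R)^[n - 1] (fun g => H g + u * F g)) 1)))
      (h * t * Real.exp (-x) * (D + u * E)) := by
    rw [← hasSum_nat_add_iff' 1]
    simp only [Finset.sum_range_one, Nat.cast_zero, zero_mul, mul_zero, sub_zero]
    refine (S3.mul_left (h * t * Real.exp (-x))).congr_fun fun n => ?_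
    rw [hex, Nat.add_sub_cancel, Nat.factorial_succ]
    push_cast
    have : ((n : ℝ) + 1) ≠ 0 := by positivity
    generalize ((PJ J R)^[n] (fun g => H g + u * F g)) 1 = q
    field_simp
    ring_nf
  have S5 := (S1.mul_left (Real.exp (-x))).add S4
  have hmain : Real.exp (-x) * E + h * t * Real.exp (-x) * (D + u * E) ≤
      ∑ g, law (fun x y => J x y + h * U x y) t g * F g := by
    refine hasSum_le (fun n => ?_) S5 S2
    have hc : 0 ≤ Real.exp (-(t * R2)) * t ^ n / (n.factorial : ℝ) := by positivity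
    have k1 := iter_ge hR hh hJ hU hRJ' hF0 n 1
    have k2 : (n : ℝ) * R ^ (n - 1) * ((PJ J R)^[n - 1] (fun g => H g + u * F g)) 1 ≤
        BB J U R F n 1 := by
      cases n with
      | zero => simp [BB]
      | succ n => exact BB_ge hR hJ hRJ' hFH n 1
    have k3 := mul_le_mul_of_nonneg_left k2 hh
    have k4 := mul_le_mul_of_nonneg_left ((add_le_add_right k3 _).trans k1) hc
    rw [← hu, ← hR2] at k4
    have l1 : Real.exp (-x) * (Real.exp (-(t * R)) * (t * R) ^ n / (n.factorial : ℝ) *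
        ((PJ J R)^[n] F) 1) = Real.exp (-(t * R2)) * t ^ n / (n.factorial : ℝ) *
        (R ^ n * ((PJ J R)^[n] F) 1) := by
      rw [hex, mul_pow]; ring
    have l2 : Real.exp (-(t * R2)) * (t * R2) ^ n / (n.factorial : ℝ) *
        ((PJ (fun x y => J x y + h * U x y) R2)^[n] F) 1 =
        Real.exp (-(t * R2)) * t ^ n / (n.factorial : ℝ) *
        (R2 ^ n * ((PJ (fun x y => J x y + h * U x y) R2)^[n] F) 1) := by
      rw [mul_pow]; ring
    rw [l1, l2, ← mul_add]
    exact k4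
  have hfin := final hE0 hE1 hx0 hy
  have e5 : Real.exp (-x) * E + h * t * Real.exp (-x) * (D + u * E) =
      Real.exp (-x) * (E + h * t * D + x * E) := by
    rw [hx]; ring
  rw [e5] at hmain
  linarith

end Pool.Agent.N795.LN
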